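import Pool.Agent.Helper38.UN.St

/-!
# Project UN, module DIS: the middle tubes are disjoint
-/

set_option autoImplicit false

open Set Filter Topology Matrix
open scoped ContDiff ComplexConjugate

noncomputable section

namespace Pool.Agent.Helper15.UN38

open Pool.Agent.Helper71.UN Pool.Agent.Helper38.UN

/-- middle part of a wall -/
private def mp (s d : ℂ) (r : ℝ) : Set ℂ :=
  (fun t : ℝ => s + t * d) '' Icc (r / 2 / ‖d‖) (1 - r / 2 / ‖d‖)

private lemma mp_compact (s d : ℂ) (r : ℝ) : IsCompact (mp s d r) :=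
  isCompact_Icc.image (by fun_prop)

private lemma mem_thick {s d z : ℂ} {r δ : ℝ} (hd : d ≠ 0) (h1 : r / 2 ≤ tt d z)
    (h2 : tt d z ≤ ‖d‖ - r / 2) (h3 : |hh d z| < δ) :
    s + z ∈ Metric.thickening δ (mp s d r) := by
  have hn : 0 < ‖d‖ := norm_pos_iff.2 hd
  rw [Metric.mem_thickening_iff]
  refine ⟨s + ((tt d z / ‖d‖ : ℝ) : ℂ) * d, ⟨tt d z / ‖d‖, ⟨?_, ?_⟩, rfl⟩, ?_⟩
  · gcongr
  · have h4 : 1 - r / 2 / ‖d‖ = (‖d‖ - r / 2) / ‖d‖ := by field_simp
    rw [h4]
    gcongr
  · rw [dist_eq_norm, add_sub_add_left_eq_sub, norm_sub_foot hd]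
    exact h3

/-- **DIS**. -/
theorem hDIS : StDIS := by
  intro κ J _ _ n N S r₁ r₂ r hN hr
  rw [Filter.eventually_all]
  intro j
  rw [Filter.eventually_all]
  intro b
  rw [Filter.eventually_all]
  intro j'
  rw [Filter.eventually_all]
  intro b'
  by_cases hc : b' = b ∧ (j' = j ∨ j' = N.op j)
  · exact Filter.Eventually.of_forall fun ε z z' _ _ _ _ _ _ _ => hc
  · have hpos : ∀ i, 0 < r / 2 / ‖N.d i‖ := fun i =>
      div_pos (by positivity) (norm_pos_iff.2 (hN.d_ne i))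
    have hdj : Disjoint (mp (N.sp j b) (N.d j) r) (mp (N.sp j' b') (N.d j') r) := by
      rw [Set.disjoint_left]
      rintro y ⟨t, ⟨ht1, ht2⟩, hty⟩ ⟨t', ⟨ht1', ht2'⟩, hty'⟩
      simp only at hty hty'
      exact hc (hN.disj j b j' b' t t' (by linarith [hpos j]) (by linarith [hpos j])
        (by linarith [hpos j']) (by linarith [hpos j']) (hty.trans hty'.symm))
    obtain ⟨δ, hδ, hdis⟩ := hdj.exists_thickenings (mp_compact _ _ _) (mp_compact _ _ _).isClosed
    filter_upwards [mem_nhdsWithin_of_mem_nhds (Iio_mem_nhds (show (0 : ℝ) < δ / 2 by positivity))]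
      with ε hε z z' h1 h2 h3 h4 h5 h6 h7
    exfalso
    have hε2 : 2 * ε < δ := by
      have : ε < δ / 2 := hε
      linarith
    have m1 := mem_thick (s := N.sp j b) (hN.d_ne j) h1 h2 (h3.trans hε2)
    have m2 := mem_thick (s := N.sp j' b') (hN.d_ne j') h4 h5 (h6.trans hε2)
    rw [← h7] at m2
    exact Set.disjoint_left.1 hdis m1 m2

end Pool.Agent.Helper15.UN38
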