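import Pool.Agent.Helper71.UN.StD

/-!
# Project UN, module CVX: convex models
-/

set_option autoImplicit false

open Set Filter Topology Matrix
open scoped ContDiff

noncomputable section

namespace Pool.Agent.Helper15.UN

open Pool.Agent.Helper71.UN

/-- **CVX**. -/
theorem hCVX (hs : StSTP) : StCVX := by
  intro n al d C m hC hm hok p q z0 z1 hp hq hpC hqC hp0 hp1 hq0 hq1
  obtain ⟨hsm, h01, hs0, hs1, _⟩ := hs
  have hmem : ∀ w : ℝ × ℝ, (1 - stp w.2) • p w.1 + stp w.2 • q w.1 ∈ C := fun w =>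
    hC (hpC w.1) (hqC w.1) (by linarith [(h01 w.2).2]) (h01 w.2).1 (by ring)
  have hsmw : ContDiff ℝ ∞ fun w : ℝ × ℝ => (1 - stp w.2) • p w.1 + stp w.2 • q w.1 := by
    have e1 : ContDiff ℝ ∞ fun w : ℝ × ℝ => stp w.2 := hsm.comp contDiff_snd
    have e2 : ContDiff ℝ ∞ fun w : ℝ × ℝ => p w.1 := hp.comp contDiff_fst
    have e3 : ContDiff ℝ ∞ fun w : ℝ × ℝ => q w.1 := hq.comp contDiff_fst
    exact ((contDiff_const.sub e1).smul e2).add (e1.smul e3)
  refine ⟨fun w => m ((1 - stp w.2) • p w.1 + stp w.2 • q w.1), ?_, ?_, ?_, ?_, ?_, ?_⟩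
  · intro l a b
    exact (hm l a b).comp_contDiff hsmw hmem
  · intro w
    exact hok _ (hmem w)
  · intro w hw
    have : (1 - stp w.2) • p w.1 + stp w.2 • q w.1 = z0 := by
      rw [hp0 _ hw, hq0 _ hw, ← add_smul]; simp
    simp only [this]
  · intro w hw
    have : (1 - stp w.2) • p w.1 + stp w.2 • q w.1 = z1 := by
      rw [hp1 _ hw, hq1 _ hw, ← add_smul]; simp
    simp only [this]
  · intro w hw
    simp [hs0 _ hw]
  · intro w hw
    simp [hs1 _ hw]

end Pool.Agent.Helper15.UN
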